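import Pool.Agent.W407.NE.Final

/-!
# Minimal non-Engel varieties of associative rings (MP_a5aec7_al, Q1)

`E : Set (RTerm × RTerm)` is a set of polynomial identities in the signature `(+, -, 0, *)` and
stands for the variety of (associative, not necessarily unital) rings it defines.

`MinimalNonEngel E`: the variety is not Engel, but every properly smaller variety is Engel.
`IsCross E`: the variety is finitely based, locally finite, and contains only finitely many
critical rings up to isomorphism.

The theorem: every minimal non-Engel variety of associative rings is a Cross variety.
-/

set_option autoImplicit false

namespace Pool.Agent.Results.MP_a5aec7_al.MinimalNonEngelCross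

open Pool.Agent.H854R3.NE

/-- Every minimal non-Engel variety of associative rings is a Cross variety. -/
theorem result : ∀ E : Set (RTerm × RTerm), MinimalNonEngel E → IsCross E :=
  fun _ h => Pool.Agent.W407.NE.main h

end Pool.Agent.Results.MP_a5aec7_al.MinimalNonEngelCross
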